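import Pool.Agent.Q237.LR.Stm5
import Pool.Agent.Q277.LR.MSR

/-!
# Project LR, job GBD: the averaged bound in infinite volume
-/

set_option autoImplicit false

namespace Pool.Agent.Q68.LR5

open MeasureTheory ProbabilityTheory Set Filter Topology H10PL Pool.Agent.Q237.LR2
  Pool.Agent.Q237.LR5

theorem gbd_liminf_add (a b : ℕ → ENNReal) :
    liminf a atTop + liminf b atTop ≤ liminf (fun n => a n + b n) atTop := by
  rw [liminf_eq_iSup_iInf_of_nat, liminf_eq_iSup_iInf_of_nat, liminf_eq_iSup_iInf_of_nat]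
  rw [ENNReal.iSup_add_iSup_of_monotone]
  · exact iSup_mono fun n => le_iInf₂ fun i hi => add_le_add (iInf₂_le i hi) (iInf₂_le i hi)
  · intro m n hmn
    exact le_iInf₂ fun i hi => iInf₂_le i (le_trans hmn hi)
  · intro m n hmn
    exact le_iInf₂ fun i hi => iInf₂_le i (le_trans hmn hi)

theorem gbd_liminf_sum {ι : Type*} (Q : Finset ι) (a : ι → ℕ → ENNReal) :
    ∑ x ∈ Q, liminf (a x) atTop ≤ liminf (fun n => ∑ x ∈ Q, a x n) atTop := by
  classical
  induction Q using Finset.induction_on with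
  | empty => simp
  | insert x Q hx ih =>
    rw [Finset.sum_insert hx]
    calc liminf (a x) atTop + ∑ x ∈ Q, liminf (a x) atTop
        ≤ liminf (a x) atTop + liminf (fun n => ∑ x ∈ Q, a x n) atTop := add_le_add le_rfl ih
      _ ≤ liminf (fun n => a x n + ∑ x ∈ Q, a x n) atTop := gbd_liminf_add _ _
      _ = _ := by
          congr 1
          funext n
          rw [Finset.sum_insert hx]

section

variable {d : ℕ} {T0 : (Fin d → ℤ) → (Fin d → ℤ) → ℝ} {κ : (Fin d → ℤ) → ℝ} {ρ0 b : ℝ}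

/-- if `Im G` is larger than `h` the self energy is at most `1 / h` -/
theorem gbd_SL (hA : Adm T0 κ ρ0 b) (ρ : ℝ) {η h : ℝ} (hη : 0 < η) (hh : 0 < h)
    (Λ : Finset (Fin d → ℤ)) (x : Fin d → ℤ) (p : Pt d) (hp : h < PL T0 κ ρ η Λ x p) :
    SL T0 κ ρ η Λ x p ≤ 1 / h := by
  by_cases hx : x ∈ Λ
  · unfold PL at hp
    unfold SL
    rw [dif_pos hx] at hp ⊢
    have hAs := Am_symm hA ρ Λ p.2.2
    have hsch := schur_diag (Am T0 κ ρ Λ p.2.2) hAs (Am_diag hA ρ Λ p.2.2)
      (fun i : Λ => p.2.1 i) p.1 hη ⟨x, hx⟩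
    set S := Sg (Am T0 κ ρ Λ p.2.2) (fun i : Λ => p.2.1 i) p.1 η ⟨x, hx⟩ with hS
    set P := Pm (Am T0 κ ρ Λ p.2.2) (fun i : Λ => p.2.1 i) p.1 η ⟨x, hx⟩ ⟨x, hx⟩ with hP
    have hS0 : 0 ≤ S.im := Sg_im_nonneg _ hAs _ p.1 hη _
    have him : (((p.2.1 x : ℝ) : ℂ) - ((p.1 : ℂ) + (η : ℂ) * Complex.I + S)).im =
        -(η + S.im) := by
      simp
    have hn : η + S.im ≤ ‖((p.2.1 x : ℝ) : ℂ) - ((p.1 : ℂ) + (η : ℂ) * Complex.I + S)‖ := by
      have := Complex.abs_im_le_norm (((p.2.1 x : ℝ) : ℂ) - ((p.1 : ℂ) + (η : ℂ) * Complex.I + S))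
      rw [him, abs_neg] at this
      exact (le_abs_self _).trans this
    have hPn : P ≤ ‖Gm (Am T0 κ ρ Λ p.2.2) (fun i : Λ => p.2.1 i) p.1 η ⟨x, hx⟩ ⟨x, hx⟩‖ :=
      (le_abs_self _).trans (Complex.abs_im_le_norm _)
    rw [hsch, norm_inv] at hPn
    have hpos : 0 < η + S.im := by linarith
    have h5 : P ≤ (η + S.im)⁻¹ := hPn.trans (inv_anti₀ hpos hn)
    have h6 : h * (η + S.im) ≤ 1 := by
      calc h * (η + S.im) ≤ (η + S.im)⁻¹ * (η + S.im) :=
            mul_le_mul_of_nonneg_right (hp.le.trans h5) hpos.le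
        _ = 1 := inv_mul_cancel₀ hpos.ne'
    rw [le_div_iff₀ hh]
    nlinarith
  · unfold PL at hp
    rw [dif_neg hx] at hp
    exact absurd hp (not_lt.2 hh.le)

end

theorem gbd (hAVG : S_AVG) : S_GBD := by
  classical
  intro d T0 κ ρ0 b η Q μ D K β B M q n0 h N F hμ hD hμD hA hη hK hq hβ hη4 hM8 hh hhM hNF
  set f : (Fin d → ℤ) → ℕ → Pt d → ENNReal :=
    fun x n p => ENNReal.ofReal (PL T0 κ n η (bx d n) x p) with hf
  have hfm : ∀ x n, Measurable (f x n) := fun x n =>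
    ENNReal.measurable_ofReal.comp (Pool.Agent.Q277.LR2.msr d T0 κ n η (bx d n) x x).1
  set R := ENNReal.ofReal (2 * K * q + Q.card * (2 * K * (Real.pi * D) ^ 2 * n0 / (q / 4)) +
        Q.card * (2 * K * Real.pi * D * (16 * B ^ 2 / (η * (q / 4))))) with hR
  -- finite volume
  have hfin : ∀ᶠ n : ℕ in atTop, ∑ x ∈ Q, ∫⁻ p in {p | ENNReal.ofReal h < f x n p}, f x n p
      ∂(mE d μ K) ≤ R := by
    have e1 : ∀ᶠ n : ℕ in atTop, ∀ x ∈ Q, ‖x‖ ≤ (n : ℝ) := by
      rw [Filter.eventually_all_finset]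
      intro x _
      exact tendsto_natCast_atTop_atTop.eventually_ge_atTop ‖x‖
    have e2 : ∀ᶠ n : ℕ in atTop, ∀ x ∈ Q, ∀ y ∈ Q, ‖x - y‖ ≤ (n : ℝ) := by
      rw [Filter.eventually_all_finset]
      intro x _
      rw [Filter.eventually_all_finset]
      intro y _
      exact tendsto_natCast_atTop_atTop.eventually_ge_atTop ‖x - y‖
    filter_upwards [e1, e2] with n h1 h2
    have hQ : Q ⊆ bx d n := by
      intro x hx
      unfold bx
      rw [Set.Finite.mem_toFinset]
      show ‖x - 0‖ ≤ (n : ℝ)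
      rw [sub_zero]
      exact h1 x hx
    have h3 := hAVG d T0 κ ρ0 b n η (bx d n) Q μ D K β B M q n0 N F hμ hD hμD hA hη hK hq hQ hβ
      hη4 hM8 (fun x hx => by
        obtain ⟨a1, a2, a3, a4, a5, a6, a7⟩ := hNF x hx
        exact ⟨a1, a2, a3, a4, a5, a6, fun y hy => ⟨(a7 y hy).1, (a7 y hy).2, h2 x hx y (a2 hy)⟩⟩)
    refine le_trans (Finset.sum_le_sum fun x hx => lintegral_mono_set ?_) h3
    intro p hp
    have hp' : h < PL T0 κ n η (bx d n) x p := by
      have := hp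
      rw [hf] at this
      exact (ENNReal.ofReal_lt_ofReal_iff_of_nonneg hh.le).1 this
    exact (gbd_SL hA n hη hh (bx d n) x p hp').trans hhM
  -- Fatou
  have hfat : ∀ x, ∫⁻ p in {p | ENNReal.ofReal h < gs T0 κ η x p}, gs T0 κ η x p ∂(mE d μ K) ≤
      liminf (fun n => ∫⁻ p in {p | ENNReal.ofReal h < f x n p}, f x n p ∂(mE d μ K)) atTop := by
    intro x
    have hg : Measurable (fun p => gs T0 κ η x p) := by
      unfold gs
      exact Measurable.liminf (fun n => hfm x n)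
    have hgA : MeasurableSet {p | ENNReal.ofReal h < gs T0 κ η x p} :=
      measurableSet_lt measurable_const hg
    have hfA : ∀ n, MeasurableSet {p | ENNReal.ofReal h < f x n p} := fun n =>
      measurableSet_lt measurable_const (hfm x n)
    rw [← lintegral_indicator hgA]
    have h2 : ∀ n, ∫⁻ p in {p | ENNReal.ofReal h < f x n p}, f x n p ∂(mE d μ K) =
        ∫⁻ p, ({p | ENNReal.ofReal h < f x n p}.indicator (f x n)) p ∂(mE d μ K) := fun n =>
      (lintegral_indicator (hfA n) _).symm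
    simp only [h2]
    refine le_trans (lintegral_mono fun p => ?_)
      (lintegral_liminf_le fun n => (hfm x n).indicator (hfA n))
    by_cases hp : ENNReal.ofReal h < gs T0 κ η x p
    · rw [Set.indicator_of_mem (by exact hp)]
      have h3 : ∀ᶠ n in atTop, ENNReal.ofReal h < f x n p := by
        have : ENNReal.ofReal h < liminf (fun n => f x n p) atTop := hp
        exact eventually_lt_of_lt_liminf this
      have h4 : liminf (fun n => ({p | ENNReal.ofReal h < f x n p}.indicator (f x n)) p) atTop =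
          liminf (fun n => f x n p) atTop := by
        refine liminf_congr ?_
        filter_upwards [h3] with n hn
        exact Set.indicator_of_mem (by exact hn) _
      rw [h4]
      exact le_rfl
    · rw [Set.indicator_of_notMem (by exact hp)]
      exact bot_le
  calc ∑ x ∈ Q, ∫⁻ p in {p | ENNReal.ofReal h < gs T0 κ η x p}, gs T0 κ η x p ∂(mE d μ K)
      ≤ ∑ x ∈ Q, liminf (fun n => ∫⁻ p in {p | ENNReal.ofReal h < f x n p}, f x n p
          ∂(mE d μ K)) atTop := Finset.sum_le_sum fun x _ => hfat x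
    _ ≤ liminf (fun n => ∑ x ∈ Q, ∫⁻ p in {p | ENNReal.ofReal h < f x n p}, f x n p
          ∂(mE d μ K)) atTop := gbd_liminf_sum Q _
    _ ≤ R := by
        refine le_trans (liminf_le_liminf hfin) ?_
        rw [liminf_const]

end Pool.Agent.Q68.LR5
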