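import Pool.Agent.Q237.LR.Stm2

/-!
# Job MAT of project LR (helper237), by helper68: the effect of random signs, finite matrices
-/

set_option autoImplicit false
set_option linter.unusedSectionVars false

namespace Pool.Agent.Q68.LR

open MeasureTheory ProbabilityTheory Set H10PL Pool.Agent.Q237.LR2

/-- mass of `Pm x x` on an event which does not depend on the potential at `x` -/
theorem mat_one {ι : Type} [Fintype ι] [DecidableEq ι] (μ : Measure ℝ) [IsProbabilityMeasure μ]
    {D : ℝ} (hD : 0 ≤ D) (hμ : μ ≤ ENNReal.ofReal D • volume) (A : Matrix ι ι ℝ) (hA : A.IsSymm)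
    (hd : ∀ i, A i i = 0) (x : ι) {K η : ℝ} (hη : 0 < η)
    (S : Set (ℝ × (ι → ℝ))) (hS : MeasurableSet S)
    (hind : ∀ E V t, (E, Function.update V x t) ∈ S ↔ (E, V) ∈ S) :
    ∫⁻ p in S, ENNReal.ofReal (Pm A p.2 p.1 η x x)
      ∂((volume.restrict (Icc (-K) K)).prod (Measure.pi fun _ : ι => μ)) ≤
      ENNReal.ofReal (Real.pi * D) *
        ((volume.restrict (Icc (-K) K)).prod (Measure.pi fun _ : ι => μ)) S := by
  classical
  have hf : Measurable fun p : ℝ × (ι → ℝ) => ENNReal.ofReal (Pm A p.2 p.1 η x x) :=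
    (Mom.meas_EV A η x).ennreal_ofReal
  rw [← lintegral_indicator hS, lintegral_prod _ (hf.indicator hS).aemeasurable,
    Measure.prod_apply hS, ← lintegral_const_mul _ (measurable_measure_prodMk_left hS)]
  refine lintegral_mono fun E => ?_
  have hSE : MeasurableSet (Prod.mk E ⁻¹' S) := measurable_prodMk_left hS
  have h2 : ∀ V, S.indicator (fun p : ℝ × (ι → ℝ) =>
      ENNReal.ofReal (Pm A p.2 p.1 η x x)) (E, V) =
      (Prod.mk E ⁻¹' S).indicator (1 : (ι → ℝ) → ENNReal) V *
        ENNReal.ofReal (Pm A V E η x x) := by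
    intro V
    by_cases hc : (E, V) ∈ S
    · rw [Set.indicator_of_mem hc, Set.indicator_of_mem (show V ∈ Prod.mk E ⁻¹' S from hc),
        Pi.one_apply, one_mul]
    · rw [Set.indicator_of_notMem hc,
        Set.indicator_of_notMem (show V ∉ Prod.mk E ⁻¹' S from hc), zero_mul]
  show ∫⁻ V, S.indicator (fun p : ℝ × (ι → ℝ) =>
      ENNReal.ofReal (Pm A p.2 p.1 η x x)) (E, V) ∂(Measure.pi fun _ : ι => μ) ≤
    ENNReal.ofReal (Real.pi * D) * (Measure.pi fun _ : ι => μ) (Prod.mk E ⁻¹' S)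
  simp only [h2]
  refine (wegner_weight μ hD hμ A hA hd E hη x _ (measurable_one.indicator hSE) ?_).trans ?_
  · intro V t
    by_cases hc : (E, V) ∈ S
    · rw [Set.indicator_of_mem (show V ∈ Prod.mk E ⁻¹' S from hc),
        Set.indicator_of_mem (show Function.update V x t ∈ Prod.mk E ⁻¹' S from (hind E V t).2 hc)]
      rfl
    · rw [Set.indicator_of_notMem (show V ∉ Prod.mk E ⁻¹' S from hc),
        Set.indicator_of_notMem (show Function.update V x t ∉ Prod.mk E ⁻¹' S from
          fun h => hc ((hind E V t).1 h))]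
  · rw [lintegral_indicator_one hSE]

/-- JOB MAT of project LR -/
theorem mat : S_MAT := by
  intro ι _ _ Ab x c F μ D K β B M η q hprob hD hμ hA hd hxF hcF hβ hcb hK hη hq hMη
  classical
  have hcx : c x = 0 := hcF x hxF
  set C : Matrix ι ι ℝ := cut Ab x with hC
  have hCs : C.IsSymm := cut_symm Ab hA x
  set P0 : Measure (ℝ × (ι → ℝ)) :=
    (volume.restrict (Icc (-K) K)).prod (Measure.pi fun _ : ι => μ) with hP0
  set Q : (ι → Bool) → (ℝ × (ι → ℝ)) → ℝ := fun ε p =>
    ∑ i, ∑ j, (Ab x i + sg (ε i) * c i) * Pm C p.2 p.1 η i j * (Ab x j + sg (ε j) * c j) with hQ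
  have hSgQ : ∀ ε (p : ℝ × (ι → ℝ)), (Sg (Aeps Ab x c ε) p.2 p.1 η x).im = Q ε p := by
    intro ε p
    rw [Sg_im, fv_cut_Aeps]
    simp only [hQ, fv_Aeps_row Ab x c hcx ε]
    rfl
  set S : (ι → Bool) → Set (ℝ × (ι → ℝ)) := fun ε =>
    {p : ℝ × (ι → ℝ) | q ≤ ∑ y ∈ F, Pm C p.2 p.1 η y y ∧
        (Sg (Aeps Ab x c ε) p.2 p.1 η x).im ≤ M * η} with hSdef
  have hmP : ∀ i j, Measurable fun p : ℝ × (ι → ℝ) => Pm C p.2 p.1 η i j :=
    fun i j => measurable_Pm' C η i j
  have hmS : ∀ ε, MeasurableSet (S ε) := by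
    intro ε
    apply MeasurableSet.inter
    · exact measurableSet_le measurable_const (Finset.measurable_sum _ fun y _ => hmP y y)
    · exact measurableSet_le (Complex.measurable_im.comp
        (measurable_Sg (Aeps Ab x c ε) η x)) measurable_const
  have hAs : ∀ ε, (Aeps Ab x c ε).IsSymm := fv_Aeps_symm Ab hA x c
  have hAd : ∀ ε i, Aeps Ab x c ε i i = 0 := fun ε => fv_Aeps_diag Ab hd x c hcx ε
  have hind : ∀ ε E V t, (E, Function.update V x t) ∈ S ε ↔ (E, V) ∈ S ε := by
    intro ε E V t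
    have h1 : ∑ y ∈ F, Pm C (Function.update V x t) E η y y = ∑ y ∈ F, Pm C V E η y y := by
      refine Finset.sum_congr rfl fun y hy => ?_
      have hyx : y ≠ x := fun h => hxF (h ▸ hy)
      unfold Pm
      rw [hC, Gm_cut_update Ab hA V t E hη x y y hyx]
    have h2 := Sg_update (Aeps Ab x c ε) (hAs ε) (hAd ε) V t E hη x
    show (q ≤ ∑ y ∈ F, Pm C (Function.update V x t) E η y y ∧
        (Sg (Aeps Ab x c ε) (Function.update V x t) E η x).im ≤ M * η) ↔
      (q ≤ ∑ y ∈ F, Pm C V E η y y ∧ (Sg (Aeps Ab x c ε) V E η x).im ≤ M * η)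
    rw [h1, h2]
  have hone : ∀ ε, ∫⁻ p in S ε, ENNReal.ofReal (Pm (Aeps Ab x c ε) p.2 p.1 η x x) ∂P0 ≤
      ENNReal.ofReal (Real.pi * D) * P0 (S ε) := fun ε =>
    mat_one μ hD hμ (Aeps Ab x c ε) (hAs ε) (hAd ε) x hη (S ε) (hmS ε) (hind ε)
  -- count
  have hcnt : ∀ p : ℝ × (ι → ℝ), ∑ ε : ι → Bool, (S ε).indicator (1 : ℝ × (ι → ℝ) → ENNReal) p ≤
      2 ^ (Fintype.card ι) * ENNReal.ofReal (16 * B ^ 2 / (η * q)) := by
    intro p
    by_cases hp : q ≤ ∑ y ∈ F, Pm C p.2 p.1 η y y
    · have hFne : F.Nonempty := by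
        by_contra hF
        rw [Finset.not_nonempty_iff_eq_empty] at hF
        rw [hF, Finset.sum_empty] at hp
        linarith
      obtain ⟨i0, hi0⟩ := hFne
      have hB : 0 < B := by
        have h3 := (hcb i0 hi0).1.trans (hcb i0 hi0).2
        by_contra hcon
        push Not at hcon
        nlinarith
      have hPs : Matrix.IsSymm (Pm C p.2 p.1 η) := by
        apply Matrix.IsSymm.ext
        intro i j
        unfold Pm
        rw [Gm_symm C hCs]
      have hm2 : β ^ 2 * q ≤ ∑ i, c i ^ 2 * Pm C p.2 p.1 η i i := by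
        calc β ^ 2 * q ≤ β ^ 2 * ∑ y ∈ F, Pm C p.2 p.1 η y y := by gcongr
          _ = ∑ y ∈ F, β ^ 2 * Pm C p.2 p.1 η y y := by rw [Finset.mul_sum]
          _ ≤ ∑ y ∈ F, c y ^ 2 * Pm C p.2 p.1 η y y := by
            apply Finset.sum_le_sum
            intro y hy
            apply mul_le_mul_of_nonneg_right _ (Pm_diag_pos C hCs _ _ hη y).le
            rw [← sq_abs (c y)]
            exact pow_le_pow_left₀ hβ.le (hcb y hy).1 2
          _ ≤ ∑ y, c y ^ 2 * Pm C p.2 p.1 η y y := by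
            apply Finset.sum_le_sum_of_subset_of_nonneg (Finset.subset_univ F)
            intro y _ _
            exact mul_nonneg (sq_nonneg _) (Pm_diag_pos C hCs _ _ hη y).le
      have hsc := sign_count (Pm C p.2 p.1 η) hPs hη (fun φ => Pm_sq_quad C hCs p.2 p.1 hη φ)
        (fun i => Ab x i) c (B * β) (by
          intro i
          by_cases hi : i ∈ F
          · exact (hcb i hi).2
          · rw [hcF i hi]; simp; positivity) (β ^ 2 * q) (by positivity) hm2
      have hsum : ∑ ε : ι → Bool, (S ε).indicator (1 : ℝ × (ι → ℝ) → ENNReal) p ≤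
          ((Finset.univ.filter fun ε : ι → Bool =>
            ∑ i, ∑ j, (Ab x i + sg (ε i) * c i) * Pm C p.2 p.1 η i j *
              (Ab x j + sg (ε j) * c j) < β ^ 2 * q / 2).card : ENNReal) := by
        rw [Finset.card_filter, Nat.cast_sum]
        apply Finset.sum_le_sum
        intro ε _
        by_cases hε : p ∈ S ε
        · rw [indicator_of_mem hε]
          have h5 : Q ε p < β ^ 2 * q / 2 := by
            have h6 := hε.2
            rw [hSgQ] at h6
            linarith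
          rw [if_pos h5]
          simp
        · rw [indicator_of_notMem hε]
          exact zero_le
      refine hsum.trans ?_
      have h3 : ((Finset.univ.filter fun ε : ι → Bool =>
            ∑ i, ∑ j, (Ab x i + sg (ε i) * c i) * Pm C p.2 p.1 η i j *
              (Ab x j + sg (ε j) * c j) < β ^ 2 * q / 2).card : ENNReal) =
          ENNReal.ofReal ((Finset.univ.filter fun ε : ι → Bool =>
            ∑ i, ∑ j, (Ab x i + sg (ε i) * c i) * Pm C p.2 p.1 η i j *
              (Ab x j + sg (ε j) * c j) < β ^ 2 * q / 2).card : ℝ) := by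
        rw [ENNReal.ofReal_natCast]
      rw [h3]
      have h4 : (2 : ENNReal) ^ (Fintype.card ι) = ENNReal.ofReal (2 ^ (Fintype.card ι)) := by
        rw [ENNReal.ofReal_pow (by norm_num)]
        simp
      rw [h4, ← ENNReal.ofReal_mul (by positivity)]
      have h7 : 16 * (B * β) ^ 2 / (η * (β ^ 2 * q)) = 16 * B ^ 2 / (η * q) := by
        field_simp
      rw [← h7]
      exact ENNReal.ofReal_le_ofReal hsc
    · have : ∑ ε : ι → Bool, (S ε).indicator (1 : ℝ × (ι → ℝ) → ENNReal) p = 0 := by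
        apply Finset.sum_eq_zero
        intro ε _
        rw [indicator_of_notMem (show p ∉ S ε from fun h => hp h.1)]
      rw [this]
      exact zero_le
  have hsumS : ∑ ε : ι → Bool, P0 (S ε) ≤
      2 ^ (Fintype.card ι) * ENNReal.ofReal (16 * B ^ 2 / (η * q)) * ENNReal.ofReal (2 * K) := by
    calc ∑ ε : ι → Bool, P0 (S ε) =
        ∑ ε : ι → Bool, ∫⁻ p, (S ε).indicator (1 : ℝ × (ι → ℝ) → ENNReal) p ∂P0 := by
          apply Finset.sum_congr rfl
          intro ε _
          rw [lintegral_indicator_one (hmS ε)]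
      _ = ∫⁻ p, ∑ ε : ι → Bool, (S ε).indicator (1 : ℝ × (ι → ℝ) → ENNReal) p ∂P0 := by
          rw [lintegral_finsetSum]
          intro ε _
          exact measurable_one.indicator (hmS ε)
      _ ≤ ∫⁻ _p, 2 ^ (Fintype.card ι) * ENNReal.ofReal (16 * B ^ 2 / (η * q)) ∂P0 :=
          lintegral_mono hcnt
      _ = _ := by rw [lintegral_const, hP0, weg_mass μ hK]
  show ∑ ε : ι → Bool, ∫⁻ p in S ε, ENNReal.ofReal (Pm (Aeps Ab x c ε) p.2 p.1 η x x) ∂P0 ≤
    2 ^ Fintype.card ι * ENNReal.ofReal (2 * K * Real.pi * D * (16 * B ^ 2 / (η * q)))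
  calc ∑ ε : ι → Bool, ∫⁻ p in S ε, ENNReal.ofReal (Pm (Aeps Ab x c ε) p.2 p.1 η x x) ∂P0
      ≤ ∑ ε : ι → Bool, ENNReal.ofReal (Real.pi * D) * P0 (S ε) :=
        Finset.sum_le_sum fun ε _ => hone ε
    _ = ENNReal.ofReal (Real.pi * D) * ∑ ε : ι → Bool, P0 (S ε) := by rw [Finset.mul_sum]
    _ ≤ ENNReal.ofReal (Real.pi * D) * (2 ^ (Fintype.card ι) *
        ENNReal.ofReal (16 * B ^ 2 / (η * q)) * ENNReal.ofReal (2 * K)) := by gcongr
    _ = 2 ^ (Fintype.card ι) * (ENNReal.ofReal (Real.pi * D) *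
        ENNReal.ofReal (16 * B ^ 2 / (η * q)) * ENNReal.ofReal (2 * K)) := by ring
    _ = _ := by
        have hpi := Real.pi_pos
        rw [← ENNReal.ofReal_mul (by positivity), ← ENNReal.ofReal_mul (by positivity)]
        congr 2
        ring

end Pool.Agent.Q68.LR
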